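import Pool.Agent.Helper72.TJ.Norms
import Pool.Agent.Helper72.TJ.Germ

set_option autoImplicit false

open Complex Matrix Filter Topology Asymptotics
open scoped Matrix.Norms.L2Operator

namespace Pool.Agent.Results.MP_968350_an.StrongCounterexample

/-- The ambient space `ℂⁿ × ℂᵈ`, with points `p = (z, w)`. -/
abbrev Amb (n d : ℕ) := (Fin n → ℂ) × (Fin d → ℂ)

/-- The real part of `ᵗz̄ A z` (the whole value when `A` is Hermitian). -/
noncomputable def hform {n : ℕ} (A : Matrix (Fin n) (Fin n) ℂ) (z : Fin n → ℂ) : ℝ :=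
  (star z ⬝ᵥ A *ᵥ z).re

/-- Near `0` the set `M` is the `C⁴` submanifold `Re w_j = ᵗz̄ A_j z + R_j(z, Im w)` with Hermitian
matrices `A_j` and a remainder `R` of class `C⁴` at `0` that is `O(3)` when `z` has weight one and
`Im w` has weight two. -/
def IsModelled {n d : ℕ} (M : Set (Amb n d)) (A : Fin d → Matrix (Fin n) (Fin n) ℂ) : Prop :=
  (∀ j, (A j).IsHermitian) ∧
  ∃ R : (Fin n → ℂ) × (Fin d → ℝ) → (Fin d → ℝ), ContDiffAt ℝ 4 R 0 ∧
    (R =O[𝓝 0] fun q => (‖q.1‖ + Real.sqrt ‖q.2‖) ^ 3) ∧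
    ∀ᶠ p in 𝓝 (0 : Amb n d),
      p ∈ M ↔ ∀ j, (p.2 j).re = hform (A j) p.1 + R (p.1, fun k => (p.2 k).im) j

/-- The model quadric `Re w_j = ᵗz̄ A_j z`, `j = 1, …, d`. -/
def modelQuadric {n d : ℕ} (A : Fin d → Matrix (Fin n) (Fin n) ℂ) : Set (Amb n d) :=
  {p | ∀ j, (p.2 j).re = hform (A j) p.1}

/-- The combination `∑ c_j A_j`. -/
def comb {n d : ℕ} (A : Fin d → Matrix (Fin n) (Fin n) ℂ) (c : Fin d → ℂ) :
    Matrix (Fin n) (Fin n) ℂ := ∑ j, c j • A j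

/-- The matrix `A = ∑ (b_j - a_j - ā_j) A_j`. -/
noncomputable def aMat {n d : ℕ} (A : Fin d → Matrix (Fin n) (Fin n) ℂ) (b : Fin d → ℝ)
    (a : Fin d → ℂ) : Matrix (Fin n) (Fin n) ℂ :=
  comb A fun j => (b j : ℂ) - a j - star (a j)

/-- `X` solves `P X² + A X + P* = 0`, where `P = ∑ a_j A_j`, and has operator norm `< 1`. -/
def IsSmallSolution {n d : ℕ} (A : Fin d → Matrix (Fin n) (Fin n) ℂ) (b : Fin d → ℝ)
    (a : Fin d → ℂ) (X : Matrix (Fin n) (Fin n) ℂ) : Prop :=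
  comb A a * X ^ 2 + aMat A b a * X + (comb A a)ᴴ = 0 ∧ ‖X‖ < 1

/-- The real matrix `G_{js} = Re ∑_r V* (X*)^r A_j A⁻¹ A_s X^r V`. -/
noncomputable def gMat {n d : ℕ} (A : Fin d → Matrix (Fin n) (Fin n) ℂ) (b : Fin d → ℝ)
    (a : Fin d → ℂ) (X : Matrix (Fin n) (Fin n) ℂ) (V : Fin n → ℂ) : Matrix (Fin d) (Fin d) ℝ :=
  fun j s => (∑' r : ℕ, star V ⬝ᵥ (Xᴴ ^ r * A j * (aMat A b a)⁻¹ * A s * X ^ r) *ᵥ V).re

/-- `𝔇(a)`-nondegeneracy for the given `b` and `a`: the matrix `A` is invertible, the equation has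
exactly one solution `X` of norm `< 1`, and `G` is nondegenerate for some `V`. -/
def DNondegenerate {n d : ℕ} (A : Fin d → Matrix (Fin n) (Fin n) ℂ) (b : Fin d → ℝ)
    (a : Fin d → ℂ) : Prop :=
  IsUnit (aMat A b a) ∧ ∃ X, IsSmallSolution A b a X ∧ (∀ Y, IsSmallSolution A b a Y → Y = X) ∧
    ∃ V, (gMat A b a X V).det ≠ 0

/-- Strong `𝔇(a)`-nondegeneracy: the same with `G` positive definite for some `V`. -/
def StronglyDNondegenerate {n d : ℕ} (A : Fin d → Matrix (Fin n) (Fin n) ℂ) (b : Fin d → ℝ)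
    (a : Fin d → ℂ) : Prop :=
  IsUnit (aMat A b a) ∧ ∃ X, IsSmallSolution A b a X ∧ (∀ Y, IsSmallSolution A b a Y → Y = X) ∧
    ∃ V, (gMat A b a X V).PosDef

/-- `F` is (a representative of) a germ at `0` of a biholomorphism fixing `0`. -/
def IsBiholGerm {n d : ℕ} (F : Amb n d → Amb n d) : Prop :=
  F 0 = 0 ∧ (∀ᶠ p in 𝓝 0, DifferentiableAt ℂ F p) ∧
    ∃ G : Amb n d → Amb n d, G 0 = 0 ∧ (∀ᶠ p in 𝓝 0, DifferentiableAt ℂ G p) ∧
      (∀ᶠ p in 𝓝 0, G (F p) = p) ∧ ∀ᶠ p in 𝓝 0, F (G p) = p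

/-- `F` sends `M` into itself near `0`. -/
def Preserves {n d : ℕ} (M : Set (Amb n d)) (F : Amb n d → Amb n d) : Prop :=
  ∀ᶠ p in 𝓝 0, p ∈ M → F p ∈ M

/-- `F` and `G` have the same derivatives up to order `2` at `0`. -/
def SameTwoJet {n d : ℕ} (F G : Amb n d → Amb n d) : Prop :=
  ∀ k ≤ 2, iteratedFDeriv ℂ k F 0 = iteratedFDeriv ℂ k G 0

open Pool.Agent.Helper72.TJ

lemma comb_am (c : Fin 12 → ℂ) : comb am c = km c := sum_am c

lemma mem_quadric (p : Amb 10 12) :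
    p ∈ modelQuadric am ↔ ∀ j, (p.2 j).re = (hv p.1 j).re := by
  unfold modelQuadric hform
  simp only [Set.mem_ofPred_eq, hv_eq]

lemma isModelled_quadric : IsModelled (modelQuadric am) am := by
  refine ⟨fun j => ?_, fun _ => 0, contDiffAt_const, isBigO_zero _ _, ?_⟩
  · have h := km_hermitian (Pi.single j 1)
    have e : (fun k => (((Pi.single j 1 : Fin 12 → ℝ) k : ℝ) : ℂ)) = Pi.single j 1 := by
      ext k
      by_cases hk : k = j
      · subst hk; simp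
      · simp [Pi.single_eq_of_ne hk]
    rw [e] at h
    exact h
  · refine Eventually.of_forall fun p => ?_
    simp [modelQuadric]

/-- The direction `a`. -/
noncomputable def av0 : Fin 12 → ℂ := fun k => (a0 k : ℂ)

lemma comb_b : comb am (fun j => (b0 j : ℂ)) = bm := comb_am _

lemma comb_a (t : ℝ) : comb am (t • av0) = (t : ℂ) • pm := by
  rw [comb_am, pm, ← km_smul]
  rfl

lemma aMat_eq (t : ℝ) : aMat am b0 (t • av0) = bm - (2 * (t : ℂ)) • pm := by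
  have e : (fun j => (b0 j : ℂ) - (t • av0) j - star ((t • av0) j)) =
      (fun k => (b0 k : ℂ)) + (-(2 * (t : ℂ))) • (fun k => (a0 k : ℂ)) := by
    ext j
    simp [av0]
    ring
  rw [aMat, e, comb_am, km_add, km_smul, neg_smul, ← sub_eq_add_neg]
  rfl

lemma aMat_isUnit (t : ℝ) : IsUnit (aMat am b0 (t • av0)) := by
  rw [aMat_eq]
  exact IsUnit.of_mul_eq_one _ (aMat_mul_ai t)

lemma aMat_inv (t : ℝ) : (aMat am b0 (t • av0))⁻¹ = ai t := by
  rw [aMat_eq]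
  exact Matrix.inv_eq_right_inv (aMat_mul_ai t)

lemma conj_pm (t : ℝ) : ((t : ℂ) • pm)ᴴ = (t : ℂ) • pm := by
  rw [Matrix.conjTranspose_smul, pm_hermitian]
  simp

lemma xm_solution (t : ℝ) (h : ‖xm (t : ℂ)‖ < 1) : IsSmallSolution am b0 (t • av0) (xm t) := by
  refine ⟨?_, h⟩
  rw [comb_a, aMat_eq, conj_pm, pow_two]
  exact xm_eq t

lemma xm_unique (t : ℝ) (h : ‖xm (t : ℂ)‖ < 1) (h2 : ‖ai (t : ℂ) * ((t : ℂ) • pm)‖ < 1 / 2)
    (Y : Matrix (Fin 10) (Fin 10) ℂ) (hY : IsSmallSolution am b0 (t • av0) Y) : Y = xm t := by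
  have hX := xm_solution t h
  obtain ⟨hX1, hX2⟩ := hX
  obtain ⟨hY1, hY2⟩ := hY
  rw [comb_a, aMat_eq] at hX1 hY1
  refine uniq_small (Ai := ai t) ?_ hX1 hY1 hX2 hY2 h2.le
  exact mul_eq_one_comm.1 (aMat_mul_ai t)

lemma ai_hermitian (t : ℝ) : (ai (t : ℂ)).IsHermitian := by
  have h : (bm - (2 * (t : ℂ)) • pm).IsHermitian := by
    rw [Matrix.IsHermitian, Matrix.conjTranspose_sub, Matrix.conjTranspose_smul, pm_hermitian]
    have : bmᴴ = bm := km_hermitian b0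
    rw [this]
    simp
  have h2 : (bm - (2 * (t : ℂ)) • pm)⁻¹ = ai t := Matrix.inv_eq_right_inv (aMat_mul_ai t)
  rw [← h2]
  exact h.inv

lemma am_hermitian (j : Fin 12) : (am j).IsHermitian := isModelled_quadric.1 j

lemma xm_pow (t : ℂ) (r : ℕ) (hr : r ∉ Finset.range 3) : xm t ^ r = 0 := by
  have h : 3 ≤ r := by simpa using hr
  obtain ⟨k, rfl⟩ := Nat.exists_eq_add_of_le h
  rw [pow_add]
  have : xm t ^ 3 = 0 := by
    rw [pow_succ, pow_two]
    exact xm_cube t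
  rw [this, zero_mul]

lemma gMat_apply (t : ℝ) (V : Fin 10 → ℂ) (j s : Fin 12) :
    gMat am b0 (t • av0) (xm t) V j s =
      ∑ r ∈ Finset.range 3, (star (am j *ᵥ (xm t ^ r *ᵥ V)) ⬝ᵥ
        ai t *ᵥ (am s *ᵥ (xm t ^ r *ᵥ V))).re := by
  rw [gMat, aMat_inv, tsum_eq_sum (s := Finset.range 3), Complex.re_sum]
  · refine Finset.sum_congr rfl fun r _ => ?_
    rw [gterm_eq (am_hermitian j)]
  · intro r hr
    rw [gterm_eq (am_hermitian j), xm_pow _ r hr]
    simp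

lemma gMat_symm (t : ℝ) (V : Fin 10 → ℂ) : (gMat am b0 (t • av0) (xm t) V).IsHermitian := by
  ext j s
  rw [Matrix.conjTranspose_apply, gMat_apply, gMat_apply]
  simp only [star_trivial]
  refine Finset.sum_congr rfl fun r _ => ?_
  have h : ∀ u v : Fin 10 → ℂ, (star u ⬝ᵥ ai (t : ℂ) *ᵥ v).re = (star v ⬝ᵥ ai (t : ℂ) *ᵥ u).re := by
    intro u v
    have e : star v ⬝ᵥ ai (t : ℂ) *ᵥ u = star (star u ⬝ᵥ ai (t : ℂ) *ᵥ v) := by
      rw [← Matrix.star_dotProduct, Matrix.star_mulVec, (ai_hermitian t).eq,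
        Matrix.dotProduct_mulVec]
    rw [e]
    simp
  exact h _ _

lemma gMat_quad (t : ℝ) (x : Fin 12 → ℝ) :
    star x ⬝ᵥ gMat am b0 (t • av0) (xm t) vv *ᵥ x = sos t x := by
  have hsum : ∀ u : Fin 10 → ℂ,
      ∑ j, x j * ∑ s, (star (am j *ᵥ u) ⬝ᵥ ai t *ᵥ (am s *ᵥ u)).re * x s =
      (star (kv (fun k => (x k : ℂ)) u) ⬝ᵥ av t (kv (fun k => (x k : ℂ)) u)).re := by
    intro u
    rw [gquad am (ai t) u x, sum_am (fun k => (x k : ℂ)), km_mulVec, ai_mulVec]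
  rw [← quad_sum, ← hsum, ← hsum, ← hsum, ← Finset.sum_add_distrib, ← Finset.sum_add_distrib]
  rw [dotProduct]
  refine Finset.sum_congr rfl fun j _ => ?_
  rw [mulVec, dotProduct, ← mul_add, ← mul_add, ← Finset.sum_add_distrib, ← Finset.sum_add_distrib]
  simp only [star_trivial, Pi.star_apply]
  congr 1
  refine Finset.sum_congr rfl fun s _ => ?_
  rw [gMat_apply, Finset.sum_range_succ, Finset.sum_range_succ, Finset.sum_range_one]
  rw [pow_zero, pow_one, Matrix.one_mulVec, pow_two, xm_vv, xm_xm_vv]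
  ring

lemma gMat_posDef (t : ℝ) (ht : t ≠ 0) : (gMat am b0 (t • av0) (xm t) vv).PosDef := by
  apply Matrix.PosDef.of_dotProduct_mulVec_pos (gMat_symm t vv)
  intro x hx
  rw [gMat_quad]
  exact sos_pos t ht x hx

/-- Two-jet determination fails under (strong) `𝔇(a)`-nondegeneracy: there are twelve Hermitian
matrices of size ten whose model quadric `M` is strongly Levi nondegenerate and, for all small real
`t ≠ 0`, strongly `𝔇(t a₀)`-nondegenerate (and `𝔇(t a₀)`-nondegenerate), while two distinct germs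
of biholomorphisms sending `M` into itself have the same `2`-jet at `0`. -/
theorem result :
    ∃ (A : Fin 12 → Matrix (Fin 10) (Fin 10) ℂ) (b : Fin 12 → ℝ) (a₀ : Fin 12 → ℂ),
      IsModelled (modelQuadric A) A ∧ IsUnit (comb A fun j => (b j : ℂ)) ∧
      (∀ᶠ t : ℝ in 𝓝[≠] 0,
        StronglyDNondegenerate A b (t • a₀) ∧ DNondegenerate A b (t • a₀)) ∧
      ∃ F G : Amb 10 12 → Amb 10 12, IsBiholGerm F ∧ Preserves (modelQuadric A) F ∧
        IsBiholGerm G ∧ Preserves (modelQuadric A) G ∧ SameTwoJet F G ∧ ¬ F =ᶠ[𝓝 0] G := by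
  refine ⟨am, b0, av0, isModelled_quadric, ?_, ?_, fmap, id, ?_, ?_, ?_, ?_, ?_, fmap_ne⟩
  · rw [comb_b]
    exact IsUnit.of_mul_eq_one _ bm_mul_bm
  · have h1 : ∀ᶠ t : ℝ in 𝓝[≠] 0, ‖xm (t : ℂ)‖ < 1 := ev_xm.filter_mono nhdsWithin_le_nhds
    have h2 : ∀ᶠ t : ℝ in 𝓝[≠] 0, ‖ai (t : ℂ) * ((t : ℂ) • pm)‖ < 1 / 2 :=
      ev_ai.filter_mono nhdsWithin_le_nhds
    have h3 : ∀ᶠ t : ℝ in 𝓝[≠] (0 : ℝ), t ≠ 0 := eventually_mem_nhdsWithin
    filter_upwards [h1, h2, h3] with t ht1 ht2 ht3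
    exact ⟨⟨aMat_isUnit t, xm t, xm_solution t ht1, xm_unique t ht1 ht2, vv, gMat_posDef t ht3⟩,
      ⟨aMat_isUnit t, xm t, xm_solution t ht1, xm_unique t ht1 ht2, vv,
        (gMat_posDef t ht3).det_pos.ne'⟩⟩
  · exact ⟨fmap_zero, Eventually.of_forall fun p => differentiable_fmap p, gmap, gmap_zero,
      Eventually.of_forall fun p => differentiable_gmap p,
      Eventually.of_forall gmap_fmap, Eventually.of_forall fmap_gmap⟩
  · refine Eventually.of_forall fun p hp => ?_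
    rw [mem_quadric] at hp ⊢
    exact fmap_mem p hp
  · exact ⟨rfl, Eventually.of_forall fun p => differentiableAt_id, id, rfl,
      Eventually.of_forall fun p => differentiableAt_id,
      Eventually.of_forall fun _ => rfl, Eventually.of_forall fun _ => rfl⟩
  · exact Eventually.of_forall fun p hp => hp
  · intro k hk
    exact fmap_twoJet k hk

end Pool.Agent.Results.MP_968350_an.StrongCounterexample
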